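import Pool.Agent.helper58.DC.Spec1

/-! AX: existence of components and path. -/

set_option autoImplicit false

namespace Pool.Agent.helper93.DC

open Pool.Agent.helper58.DC

theorem rk_mono {G : Type} [Group G] (C : Finset (Subgroup G)) {P Q : Subgroup G} (h : P ≤ Q) :
    rk C P ≤ rk C Q := by
  classical
  unfold rk
  refine Finset.card_le_card fun R hR => ?_
  rw [Finset.mem_filter] at hR ⊢
  exact ⟨hR.1, lt_of_lt_of_le hR.2 h⟩

theorem AX (hNT : NT_stmt) (hPR0 : PR0_stmt) (hPJ : PJ_stmt) : AX_stmt := by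
  classical
  intro G T _ _ _ p _ hOp C' hC'
  have hrad : ∀ t : T, IsRadical p (C'.image fun P => P.map (Pi.evalMonoidHom (fun _ => G) t)) :=
    fun t => by
      have := hPJ G T p hOp C' hC' t
      convert this
  set C : T → Finset (Subgroup G) := fun t =>
    C'.image fun P => P.map (Pi.evalMonoidHom (fun _ => G) t) with hCdef
  set v : Subgroup (T → G) → T → ℕ := fun P t =>
    rk (C t) (P.map (Pi.evalMonoidHom (fun _ => G) t)) with hv
  have hmem : ∀ P ∈ C', ∀ t, P.map (Pi.evalMonoidHom (fun _ => G) t) ∈ C t := fun P hP t =>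
    Finset.mem_image_of_mem _ hP
  have hnt := fun t => hNT G (C t) (hrad t).chain
  obtain ⟨P₀, hP₀, -⟩ := hC'.radical
  refine ⟨C, C'.image v, hrad, ⟨⟨v P₀, Finset.mem_image_of_mem _ hP₀⟩, ?_, ?_, ?_⟩, ?_⟩
  · intro r hr u hu hru
    rw [Finset.mem_coe, Finset.mem_image] at hr hu
    obtain ⟨P, hP, rfl⟩ := hr
    obtain ⟨Q, hQ, rfl⟩ := hu
    have hne : P ≠ Q := fun h => hru (by rw [h])
    rcases hC'.chain hP hQ hne with h | h
    · left
      intro t
      exact rk_mono _ (Subgroup.map_mono h)
    · right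
      intro t
      exact rk_mono _ (Subgroup.map_mono h)
  · intro r hr t
    rw [Finset.mem_image] at hr
    obtain ⟨P, hP, rfl⟩ := hr
    have := ((hnt t).1 _ (hmem P hP t)).1
    show rk (C t) _ ≤ (C t).card - 1
    omega
  · intro t j hj
    have hpos : 0 < (C t).card := Finset.card_pos.2 ⟨_, hmem P₀ hP₀ t⟩
    have hj' : j < (C t).card := by
      have : j ≤ (C t).card - 1 := hj
      omega
    obtain ⟨h1, h2⟩ := (hnt t).2.1 j hj'
    have h3 : nth (C t) j ∈ C'.image fun P => P.map (Pi.evalMonoidHom (fun _ => G) t) := h1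
    rw [Finset.mem_image] at h3
    obtain ⟨P, hP, hPj⟩ := h3
    refine ⟨v P, Finset.mem_image_of_mem _ hP, ?_⟩
    show rk (C t) (P.map (Pi.evalMonoidHom (fun _ => G) t)) = j
    rw [hPj, h2]
  · have e : ∀ P ∈ C', Subgroup.pi Set.univ (fun t => nth (C t) (v P t)) = P := by
      intro P hP
      have h1 := hPR0 G T p hOp C' hC' P hP
      conv_rhs => rw [h1]
      congr 1
      funext t
      exact ((hnt t).1 _ (hmem P hP t)).2
    unfold asmC
    rw [Finset.image_image]
    have e2 : C'.image ((fun r : T → ℕ => Subgroup.pi Set.univ fun t => nth (C t) (r t)) ∘ v) =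
        C'.image id := Finset.image_congr fun P hP => e P hP
    rw [Finset.image_id] at e2
    exact e2

end Pool.Agent.helper93.DC
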