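import Pool.Agent.helper58.DC.Spec2

/-! EM: embedding in alternating groups. -/

set_option autoImplicit false

namespace Pool.Agent.helper93.DC

open Pool.Agent.helper58.DC

theorem EM : EM_stmt := by
  classical
  intro A _ _
  have : Fintype A := Fintype.ofFinite A
  refine ⟨Fintype.card A + Fintype.card A, fun m hm => ?_⟩
  have e : (A ⊕ A) ⊕ Fin (m - (Fintype.card A + Fintype.card A)) ≃ Fin m := by
    refine Fintype.equivFinOfCardEq ?_
    rw [Fintype.card_sum, Fintype.card_sum, Fintype.card_fin]
    omega
  let f : A →* Equiv.Perm (Fin m) :=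
    { toFun := fun a => e.permCongr (Equiv.Perm.sumCongr (Equiv.Perm.sumCongr
        (MulAction.toPermHom A A a) (MulAction.toPermHom A A a)) 1)
      map_one' := by
        refine Equiv.ext fun x => ?_
        obtain ⟨y, rfl⟩ := e.surjective x
        rcases y with (y | y) | y <;> simp
      map_mul' := fun a b => by
        refine Equiv.ext fun x => ?_
        obtain ⟨y, rfl⟩ := e.surjective x
        rcases y with (y | y) | y <;> simp [mul_assoc] }
  have hf : ∀ a, f a ∈ alternatingGroup (Fin m) := by
    intro a
    rw [Equiv.Perm.mem_alternatingGroup]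
    show Equiv.Perm.sign (e.permCongr (Equiv.Perm.sumCongr (Equiv.Perm.sumCongr
        (MulAction.toPermHom A A a) (MulAction.toPermHom A A a)) 1)) = 1
    rw [Equiv.Perm.sign_permCongr, Equiv.Perm.sign_sumCongr, Equiv.Perm.sign_sumCongr,
      Equiv.Perm.sign_one, mul_one]
    exact Int.units_mul_self _
  refine ⟨f.codRestrict _ hf, ?_⟩
  intro a b hab
  have h1 : f a = f b := congrArg Subtype.val hab
  have h2 := congrArg (fun σ : Equiv.Perm (Fin m) => e.symm (σ (e (Sum.inl (Sum.inl 1))))) h1
  have h3 : ∀ a : A, e.symm ((f a) (e (Sum.inl (Sum.inl 1)))) = Sum.inl (Sum.inl a) := by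
    intro a
    show e.symm ((e.permCongr (Equiv.Perm.sumCongr (Equiv.Perm.sumCongr
        (MulAction.toPermHom A A a) (MulAction.toPermHom A A a)) 1)) (e (Sum.inl (Sum.inl 1)))) = _
    simp
  simp only [h3] at h2
  simpa using h2

end Pool.Agent.helper93.DC
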