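import Pool.Agent.helper58.DC.Spec1

/-! OI: central characters take integral values. -/

set_option autoImplicit false

namespace Pool.Agent.helper93.DC

open Pool.Agent.helper58.DC

theorem OI_scalar (H : Type) [Group H] [Finite H] (V : Type) [AddCommGroup V] [Module ℂ V]
    [FiniteDimensional ℂ V] (ρ : Representation ℂ H V) (hirr : ρ.IsIrreducible) (K : Finset H)
    (hK : ∀ x h : H, h ∈ K ↔ x * h * x⁻¹ ∈ K) :
    IsIntegral ℤ ((∑ h ∈ K, ρ.character h) / ρ.character 1) := by
  classical
  have hint : IsIntegral ℤ (∑ h ∈ K, ρ h : Module.End ℂ V) := by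
    have hz : IsIntegral ℤ (∑ h ∈ K, MonoidAlgebra.of ℤ H h) := IsIntegral.of_finite ℤ _
    have h2 := hz.map (MonoidAlgebra.lift ℤ (Module.End ℂ V) H ρ)
    rw [map_sum] at h2
    convert h2 using 2 with h hh
    simp
  have hcomm : ∀ x : H, (∑ h ∈ K, ρ h : Module.End ℂ V) ∘ₗ ρ x =
      ρ x ∘ₗ (∑ h ∈ K, ρ h : Module.End ℂ V) := by
    intro x
    show (∑ h ∈ K, ρ h : Module.End ℂ V) * ρ x = ρ x * (∑ h ∈ K, ρ h : Module.End ℂ V)
    rw [Finset.sum_mul, Finset.mul_sum]
    symm
    refine Finset.sum_equiv (MulAut.conj x).toEquiv (fun h => ?_) (fun h _ => ?_)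
    · simpa using hK x h
    · rw [← map_mul, ← map_mul]
      simp
  have hsch := Representation.IsIrreducible.algebraMap_intertwiningMap_bijective_of_isAlgClosed
    (ρ := ρ)
  obtain ⟨c, hc⟩ := hsch.2 ⟨(∑ h ∈ K, ρ h : Module.End ℂ V), hcomm⟩
  have hc' : (∑ h ∈ K, ρ h : Module.End ℂ V) = c • (1 : Module.End ℂ V) := by
    have h3 := congrArg Representation.IntertwiningMap.toLinearMap hc
    rw [Representation.IntertwiningMap.algebraMap_apply] at h3
    exact h3.symm
  have htr : ∑ h ∈ K, ρ.character h = c * ρ.character 1 := by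
    have h4 := congrArg (LinearMap.trace ℂ V) hc'
    rw [map_sum, map_smul, smul_eq_mul] at h4
    have h5 : ρ.character 1 = LinearMap.trace ℂ V (1 : Module.End ℂ V) := by
      unfold Representation.character
      rw [map_one]
    rw [h5, ← h4]
    rfl
  rw [htr]
  by_cases h0 : ρ.character 1 = 0
  · rw [h0, mul_zero, zero_div]
    exact isIntegral_zero
  · rw [mul_div_cancel_right₀ _ h0]
    have hnt : Nontrivial V := by
      by_contra hV
      rw [not_nontrivial_iff_subsingleton] at hV
      apply h0
      rw [Representation.char_one]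
      have := Module.finrank_zero_of_subsingleton (R := ℂ) (M := V)
      rw [this]
      simp
    rw [hc'] at hint
    have h6 : (c • (1 : Module.End ℂ V)) = IsScalarTower.toAlgHom ℤ ℂ (Module.End ℂ V) c := by
      rw [IsScalarTower.toAlgHom_apply, Algebra.algebraMap_eq_smul_one]
    rw [h6, isIntegral_algHom_iff] at hint
    · exact hint
    · intro a b hab
      exact FaithfulSMul.algebraMap_injective ℂ (Module.End ℂ V) hab

theorem OI : OI_stmt := by
  classical
  intro G _ _ H ψ hψ g
  obtain ⟨hsupp, V, _, _, _, ρ, hirr, hchar⟩ := hψ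
  have : Fintype G := Fintype.ofFinite G
  have : Fintype H := Fintype.ofFinite H
  have key := OI_scalar H V ρ hirr (Finset.univ.filter (fun h : H => IsConj g (h : G)))
    (fun x h => by
      simp only [Finset.mem_filter, Finset.mem_univ, true_and, Subgroup.coe_mul,
        Subgroup.coe_inv]
      constructor
      · intro h1
        exact h1.trans (isConj_iff.2 ⟨(x : G), rfl⟩)
      · intro h1
        exact h1.trans (IsConj.symm (isConj_iff.2 ⟨(x : G), rfl⟩)))
  rw [hchar] at key
  have e : ∑ᶠ x ∈ conjugatesOf g, ψ x =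
      ∑ h ∈ Finset.univ.filter (fun h : H => IsConj g (h : G)), ψ (h : G) := by
    rw [finsum_mem_eq_toFinset_sum]
    have h1 : ∑ h ∈ Finset.univ.filter (fun h : H => IsConj g (h : G)), ψ (h : G) =
        ∑ x ∈ (Finset.univ.filter (fun h : H => IsConj g (h : G))).map
          (Function.Embedding.subtype _), ψ x := by
      rw [Finset.sum_map]
      rfl
    rw [h1]
    symm
    refine Finset.sum_subset ?_ ?_
    · intro x hx
      rw [Finset.mem_map] at hx
      obtain ⟨h, hh, rfl⟩ := hx
      rw [Finset.mem_filter] at hh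
      rw [Set.mem_toFinset]
      exact hh.2
    · intro x hx hx'
      apply hsupp
      intro hxH
      apply hx'
      rw [Set.mem_toFinset] at hx
      rw [Finset.mem_map]
      exact ⟨⟨x, hxH⟩, by rw [Finset.mem_filter]; exact ⟨Finset.mem_univ _, hx⟩, rfl⟩
  unfold omega
  rw [e]
  exact key

end Pool.Agent.helper93.DC
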