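import Pool.Agent.helper58.DC.Spec1

/-! IRC: irreducible characters of finite products are products. -/

set_option autoImplicit false

namespace Pool.Agent.helper93.DC

open Pool.Agent.helper58.DC

/-- reindexing of a dependent product -/
noncomputable def piE {α β : Type} (e : α ≃ β) (H : β → Type) [∀ b, Group (H b)] :
    (∀ b, H b) ≃* (∀ a, H (e a)) :=
  { (Equiv.piCongrLeft H e).symm with
    map_mul' := fun x y => by
      funext a
      rfl }

theorem piE_apply {α β : Type} (e : α ≃ β) (H : β → Type) [∀ b, Group (H b)] (x : ∀ b, H b)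
    (a : α) : piE e H x a = x (e a) := rfl

/-- splitting off one factor -/
def optE {α : Type} (H : Option α → Type) [∀ b, Group (H b)] :
    (∀ b, H b) ≃* (H none × ∀ a, H (some a)) where
  toFun x := (x none, fun a => x (some a))
  invFun y := fun b => match b with
    | none => y.1
    | some a => y.2 a
  left_inv x := by
    funext b
    cases b <;> rfl
  right_inv y := rfl
  map_mul' x y := rfl

theorem IRC (hIRF : IRF_stmt) (hIRT : IRT_stmt) (hIRC2 : IRC2_stmt) : IRC_stmt := by
  classical
  intro T hT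
  refine Fintype.induction_empty_option (P := fun T _ => ∀ (H : T → Type) [∀ t, Group (H t)]
    [∀ t, Finite (H t)], ∀ θ ∈ Irr (∀ t, H t), ∃ χ : ∀ t, H t → ℂ, (∀ t, χ t ∈ Irr (H t)) ∧
      θ = fun x => ∏ t, χ t (x t)) ?_ ?_ ?_ T
  · intro α β _ e ih H _ _ θ hθ
    have h1 := hIRT (∀ a, H (e a)) (∀ b, H b) (piE e H).symm θ hθ
    obtain ⟨χ, hχ, hθ'⟩ := ih (fun a => H (e a)) _ h1
    refine ⟨Equiv.piCongrLeft (fun b => H b → ℂ) e χ, ?_, ?_⟩
    · intro b
      obtain ⟨a, rfl⟩ := e.surjective b
      rw [Equiv.piCongrLeft_apply_apply]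
      exact hχ a
    · funext x
      have h2 := congrFun hθ' (piE e H x)
      simp only [MulEquiv.symm_apply_apply] at h2
      rw [h2]
      let _ : Fintype α := Fintype.ofEquiv β e.symm
      rw [← e.prod_comp]
      refine Finset.prod_congr rfl fun a _ => ?_
      rw [Equiv.piCongrLeft_apply_apply]
      rfl
  · intro H _ _ θ hθ
    refine ⟨fun t => t.elim, fun t => t.elim, ?_⟩
    obtain ⟨-, h⟩ := hIRF (∀ t, H t)
    obtain ⟨⟨n, hn, h1⟩, -, h3⟩ := h θ hθ
    have hsub : ∀ x : (∀ t, H t), x = 1 := fun x => by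
      funext t
      exact t.elim
    have huniq : Unique (∀ t, H t) := ⟨⟨1⟩, hsub⟩
    have hc : Nat.card (∀ t, H t) = 1 := Nat.card_unique
    rw [hc, finsum_unique] at h3
    have hd : (default : ∀ t, H t) = 1 := hsub _
    rw [hd, inv_one, h1] at h3
    have hn1 : n = 1 := by
      have : ((n * n : ℕ) : ℂ) = ((1 : ℕ) : ℂ) := by
        rw [Nat.cast_mul]
        exact h3
      have h4 : n * n = 1 := Nat.cast_injective this
      exact Nat.eq_one_of_mul_eq_one_right h4
    funext x
    rw [hsub x, h1, hn1]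
    simp
  · intro α _ ih H _ _ θ hθ
    have h1 := hIRT (H none × ∀ a, H (some a)) (∀ b, H b) (optE H).symm θ hθ
    obtain ⟨χ0, hχ0, β, hβ, h2⟩ := hIRC2 (H none) (∀ a, H (some a)) _ h1
    obtain ⟨χ, hχ, h3⟩ := ih (fun a => H (some a)) β hβ
    refine ⟨fun t => match t with
      | none => χ0
      | some a => χ a, ?_, ?_⟩
    · intro t
      cases t with
      | none => exact hχ0
      | some a => exact hχ a
    · funext x
      have h4 := congrFun h2 (optE H x)
      simp only [MulEquiv.symm_apply_apply] at h4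
      rw [h4, Fintype.prod_option, h3]
      rfl

end Pool.Agent.helper93.DC
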